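import Mathlib
import Pool.Agent.V11311.DV.E

set_option autoImplicit false

/-!
Divergent trajectories of the `3x+1` map and the probability that `k` random trajectories have a
common large term.
-/

namespace Pool.Agent.Results.MP_ff4775_nt.CommonLargeTerms

open Filter Topology

/-- the `3x+1` map `T` on the nonnegative integers -/
def T (n : ℕ) : ℕ := if n % 2 = 0 then n / 2 else (3 * n + 1) / 2

/-- the trajectories of `n` and `r` have a common term -/
def Meets (n r : ℕ) : Prop := ∃ i j : ℕ, T^[i] n = T^[j] r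

/-- `r` is the smallest of the positive integers whose trajectory meets that of `r` -/
def Smallest (r : ℕ) : Prop := 0 < r ∧ ∀ n : ℕ, 0 < n → Meets n r → r ≤ n

/-- the trajectory of `r` is divergent -/
def Divergent (r : ℕ) : Prop := Tendsto (fun j : ℕ => T^[j] r) atTop atTop

/-- the number of the `k`-tuples of integers in `[1, N]` whose trajectories have a common term `> x` -/
noncomputable def common (k x N : ℕ) : ℕ :=
  {v : Fin k → ℕ | (∀ i, 0 < v i ∧ v i ≤ N) ∧ ∃ m, x < m ∧ ∀ i, ∃ j : ℕ, T^[j] (v i) = m}.ncard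

open scoped Classical in
/-- **Divergence and common large terms.** The positive integers `n` whose trajectory meets that of `r > 0`
have a positive natural density `δ r`. For all `k ≥ 2` the probability that the trajectories of `k` random
positive integers have a common term `> x` tends, for `x → ∞`, to the sum of the `k`-th powers of the
densities of the classes of coalescing divergent trajectories (each class being represented by its smallest
member `r`). This sum is positive if and only if some positive integer has a divergent trajectory. -/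
theorem result : ∃ δ : ℕ → ℝ,
    (∀ r : ℕ, 0 < r → 0 < δ r ∧
      Tendsto (fun N : ℕ => ({n : ℕ | 0 < n ∧ n ≤ N ∧ Meets n r}.ncard : ℝ) / N) atTop (𝓝 (δ r))) ∧
    ∀ k : ℕ, 2 ≤ k →
      Summable (fun r : ℕ => if Smallest r ∧ Divergent r then δ r ^ k else 0) ∧
      (∀ ε : ℝ, 0 < ε → ∀ᶠ x : ℕ in atTop, ∀ᶠ N : ℕ in atTop,
        |(common k x N : ℝ) / (N : ℝ) ^ k - ∑' r : ℕ, if Smallest r ∧ Divergent r then δ r ^ k else 0| ≤ ε) ∧
      ((0 < ∑' r : ℕ, if Smallest r ∧ Divergent r then δ r ^ k else 0) ↔ ∃ r : ℕ, 0 < r ∧ Divergent r) := by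
  choose δ hδ using Pool.Agent.V11311.DV.cls_dens
  have h : Pool.Agent.V11311.DV.IsC δ := hδ
  have hV : ∀ k : ℕ, ∀ r : ℕ, Pool.Agent.V11311.DV.W δ Pool.Agent.V11311.DV.Div k r
      = if Smallest r ∧ Divergent r then δ r ^ k else 0 := by
    intro k r
    unfold Pool.Agent.V11311.DV.W
    by_cases h1 : Smallest r ∧ Divergent r
    · have h2 : Pool.Agent.V11311.DV.Rep r ∧ Pool.Agent.V11311.DV.Div r := h1
      rw [if_pos h1, if_pos h2]
    · have h2 : ¬ (Pool.Agent.V11311.DV.Rep r ∧ Pool.Agent.V11311.DV.Div r) := h1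
      rw [if_neg h1, if_neg h2]
  refine ⟨δ, fun r hr => ⟨h.pos hr, ?_⟩, ?_⟩
  · have h1 := h r
    unfold Pool.Agent.V11311.FP.HasD at h1
    refine h1.congr fun N => ?_
    congr 2
    unfold Pool.Agent.V11311.FP.cN
    rw [← Set.ncard_coe_finset]
    congr 1
    ext n
    rw [Finset.mem_coe, Finset.mem_filter, Finset.mem_Icc]
    constructor
    · rintro ⟨⟨h1, h2⟩, h3⟩; exact ⟨h1, h2, h3⟩
    · rintro ⟨h1, h2, h3⟩; exact ⟨⟨h1, h2⟩, h3⟩
  · intro k hk
    have e2 : (fun r : ℕ => if Smallest r ∧ Divergent r then δ r ^ k else 0)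
        = Pool.Agent.V11311.DV.W δ Pool.Agent.V11311.DV.Div k := funext fun r => (hV k r).symm
    rw [e2]
    obtain ⟨j, rfl⟩ : ∃ j, k = j + 2 := ⟨k - 2, by omega⟩
    refine ⟨?_, ?_, ?_⟩
    · exact Pool.Agent.V11311.DV.W_summable h _ (by omega)
    · intro ε hε
      filter_upwards [Pool.Agent.V11311.DV.SH_up h j (ε / 4) (by positivity)] with x hx
      have h1 := Pool.Agent.V11311.DV.low_gen h Pool.Agent.V11311.DV.Div j
        (fun N => Pool.Agent.V11311.DV.SH (j + 2) x N) (fun N => Pool.Agent.V11311.DV.SH_fin _ x N)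
        (fun N r _ hr v hv => by
          obtain ⟨m, h2, h3⟩ := Pool.Agent.V11311.DV.common_of_div (fun i => (hv i).2) hr x
          exact ⟨fun i => (hv i).1, m, h2, h3⟩) ε hε
      filter_upwards [hx, h1] with N h3 h4
      have h5 : (common (j + 2) x N : ℝ) = ((Pool.Agent.V11311.DV.SH (j + 2) x N).ncard : ℝ) := rfl
      rw [h5, abs_le]
      constructor <;> linarith
    · exact (Pool.Agent.V11311.DV.div_iff h (by omega)).symm

end Pool.Agent.Results.MP_ff4775_nt.CommonLargeTerms
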