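import Pool.Agent.Results.MP_ff4775_nt.CountBelowEntropy
import Pool.Agent.H107.SparseInt

/-!
# All divergent trajectories of the `3x+1` map miss the windows around the multiples of almost every number, and approach
# almost no point

**Theorem.** There is `η` smaller than the entropy exponent `H = 0.94995...` such that:

1. Let `v_m ≥ 1` be a sequence with exponent of convergence at most `τ` (`0` for `b ^ m`, `1 / a` for `(m + 1) ^ a`) and
`θ < 1`. For all real `α` outside of a set of Hausdorff dimension at most `(η + τ) / (1 - θ)` and ALL divergent trajectories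
of the `3x+1` map on the integers, for all large `m` the trajectory has no element in the window `|x - α v_m| ≤ v_m ^ θ`.

2. For every map `φ` of the integers to a metric space (for example the inclusion in the `p`-adic integers, or in the
circle by `x ↦ x β`) and all `σ > 0`, for all `z` outside of a set of Hausdorff dimension at most `η / σ` and ALL divergent
trajectories only finitely many terms `x` of the trajectory satisfy `dist (φ x) z ≤ |x| ^ (-σ)`.

The proof combines the bound `O(R ^ η)` for the number of the elements of a divergent trajectory in `[-R, R]` (starting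
file `CountBelowEntropy`) with coverings.
-/

set_option autoImplicit false

namespace Pool.Agent.Results.MP_ff4775_nt.DivergentOrbitsInWindows

open Filter Pool.Agent.Results.MP_ff4775_nt.CountBelowEntropy
open Pool.Agent.V35.WM (ExpLe)

/-- The trajectory of `n` under the `3x+1` map `T` (`T x = x / 2` or `(3 x + 1) / 2`) is divergent. -/
def Divergent (n : ℤ) : Prop := Tendsto (fun k => |T^[k] n|) atTop atTop

/-- The entropy exponent `0.94995...`. -/
noncomputable def H : ℝ := Real.binEntropy (Real.log 2 / Real.log 3) / Real.log 2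

theorem H_pos : 0 < H := by
  have hl2 : 0 < Real.log 2 := Real.log_pos (by norm_num)
  have hl3 : 0 < Real.log 3 := Real.log_pos (by norm_num)
  have h23 : Real.log 2 < Real.log 3 := Real.log_lt_log (by norm_num) (by norm_num)
  unfold H
  refine div_pos (Real.binEntropy_pos (div_pos hl2 hl3) ?_) hl2
  rw [div_lt_one hl3]
  exact h23

theorem finite_terms {n : ℤ} (hn : Divergent n) {S : Set ℤ} (hS : S.Finite) : {k : ℕ | T^[k] n ∈ S}.Finite := by
  obtain ⟨B, hB⟩ := (hS.image (fun x => |x|)).bddAbove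
  have h1 := hn.eventually_gt_atTop B
  obtain ⟨K, hK⟩ := eventually_atTop.1 h1
  refine (Set.finite_Iio K).subset fun k hk => ?_
  by_contra hcon
  have h2 := hK k (not_lt.1 hcon)
  have h3 : |T^[k] n| ≤ B := hB ⟨_, hk, rfl⟩
  omega

/-- There is `η < H` such that (1) for `v_m ≥ 1` of exponent of convergence at most `τ`, `θ < 1` and all `α` outside a set of
dimension at most `(η + τ) / (1 - θ)`, for all divergent trajectories no element is in the window `|x - α v_m| ≤ v_m ^ θ`, `m`
large; (2) for all maps `φ` to metric spaces, `σ > 0` and `z` outside a set of dimension at most `η / σ`, for all divergent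
trajectories only finitely many terms `x` satisfy `dist (φ x) z ≤ |x| ^ (-σ)`; (3) examples of exponents of convergence. -/
theorem result : ∃ η : ℝ, 0 ≤ η ∧ η < H ∧
    (∀ (v : ℕ → ℝ) (τ θ : ℝ), (∀ m, 1 ≤ v m) → 0 ≤ τ → ExpLe v τ → θ < 1 →
      ∃ E : Set ℝ, dimH E ≤ ENNReal.ofReal ((η + τ) / (1 - θ)) ∧ ∀ α ∉ E, ∀ n : ℤ, Divergent n →
        ∃ m₀ : ℕ, ∀ m : ℕ, m₀ ≤ m → ∀ k : ℕ, (v m) ^ θ < |((T^[k] n : ℤ) : ℝ) - α * v m|) ∧
    (∀ (M : Type) [MetricSpace M] (φ : ℤ → M) (σ : ℝ), 0 < σ →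
      ∃ E : Set M, dimH E ≤ ENNReal.ofReal (η / σ) ∧ ∀ z ∉ E, ∀ n : ℤ, Divergent n →
        {k : ℕ | dist (φ (T^[k] n)) z ≤ (max 1 |((T^[k] n : ℤ) : ℝ)|) ^ (-σ)}.Finite) ∧
    (∀ b : ℝ, 1 < b → ExpLe (fun m : ℕ => b ^ m) 0) ∧
    (∀ a : ℝ, 0 < a → ExpLe (fun m : ℕ => ((m : ℝ) + 1) ^ a) (1 / a)) := by
  classical
  obtain ⟨η, C, hη, h⟩ := Pool.Agent.Results.MP_ff4775_nt.CountBelowEntropy.result
  have hsp : ∀ j : {n : ℤ // Divergent n},
      Pool.Agent.H107.SI.Sparse {z : ℤ | ∃ k : ℕ, T^[k] j.1 = z} (max η 0) := by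
    rintro ⟨n, hn⟩
    refine ⟨|C|, fun R hR F hF => ?_⟩
    have h1 := h n hn 0 R hR
    have hsub : (F : Set ℤ) ⊆ {z : ℤ | (∃ k : ℕ, T^[k] n = z) ∧ |(z : ℝ) - 0| ≤ R} := by
      intro z hz
      have := hF z hz
      rw [← sub_zero (z : ℝ)] at this
      exact this
    have hfin : {z : ℤ | (∃ k : ℕ, T^[k] n = z) ∧ |(z : ℝ) - 0| ≤ R}.Finite := by
      refine (Pool.Agent.H107.SI.ball_finite Set.univ R).subset ?_
      rintro z ⟨_, hz⟩
      rw [sub_zero] at hz
      exact ⟨trivial, hz⟩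
    have h2 : (F.card : ℝ) ≤ ({z : ℤ | (∃ k : ℕ, T^[k] n = z) ∧ |(z : ℝ) - 0| ≤ R}.ncard : ℝ) := by
      have := Set.ncard_le_ncard hsub hfin
      rw [Set.ncard_coe_finset] at this
      exact_mod_cast this
    refine h2.trans (h1.trans ?_)
    have h3 : C * R ^ η ≤ |C| * R ^ η := mul_le_mul_of_nonneg_right (le_abs_self C) (by positivity)
    refine h3.trans (mul_le_mul_of_nonneg_left ?_ (abs_nonneg C))
    exact Real.rpow_le_rpow_of_exponent_le hR (le_max_left _ _)
  refine ⟨max η 0, le_max_right _ _, max_lt hη H_pos, ?_, ?_, Pool.Agent.V35.WM.expLe_geom, Pool.Agent.V35.WM.expLe_pow⟩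
  · intro v τ θ hv hτ hvτ hθ
    obtain ⟨E, h1, h2⟩ := Pool.Agent.H107.SI.win (J := {n : ℤ // Divergent n}) _ (le_max_right _ _) hsp hv hτ hvτ hθ
    refine ⟨E, h1, fun α hα n hn => ?_⟩
    obtain ⟨m₀, hm₀⟩ := h2 α hα ⟨n, hn⟩
    exact ⟨m₀, fun m hm k => hm₀ m hm _ ⟨k, rfl⟩⟩
  · intro M _ φ σ hσ
    obtain ⟨E, h1, h2⟩ := Pool.Agent.H107.SI.near (J := {n : ℤ // Divergent n}) _ (le_max_right _ _) hsp φ hσ
    refine ⟨E, h1, fun z hz n hn => ?_⟩
    refine (finite_terms hn (h2 z hz ⟨n, hn⟩)).subset ?_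
    intro k hk
    exact ⟨⟨k, rfl⟩, hk⟩

end Pool.Agent.Results.MP_ff4775_nt.DivergentOrbitsInWindows
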