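import Mathlib
import Pool.Agent.V11311.BW.E

set_option autoImplicit false

/-!
Residues modulo any `M` and leading digits, jointly, in all short blocks of typical trajectories.
-/

namespace Pool.Agent.Results.MP_ff4775_nt.ResiduesAndDigitsInWindows

open Filter Topology

/-- the `3x+1` function -/
def T (n : ℕ) : ℕ := if n % 2 = 0 then n / 2 else (3 * n + 1) / 2

/-- the positive integers with the property `P` have the natural density `δ` -/
def HasDensity (P : ℕ → Prop) (δ : ℝ) : Prop :=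
  Tendsto (fun N : ℕ => ({n : ℕ | 1 ≤ n ∧ n ≤ N ∧ P n}.ncard : ℝ) / N) atTop (𝓝 δ)

/-- the number of `j < w` such that `T^j m` is congruent to `r` modulo `M` and the fractional part of
its logarithm in base `B` is in `[a, b)` -/
noncomputable def visits (M r : ℕ) (B a b : ℝ) (m w : ℕ) : ℕ :=
  ((Finset.range w).filter (fun j => T^[j] m % M = r ∧ a ≤ Int.fract (Real.logb B (T^[j] m : ℕ)) ∧
    Int.fract (Real.logb B (T^[j] m : ℕ)) < b)).card

/-- `p` is a probability vector on the residues modulo `M` with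
`p r = 1/2 * ∑ p (x mod M)`, the sum over the residues `x` modulo `2 M` with `T x ≡ r` modulo `M` -/
def Stationary (M : ℕ) (p : ℕ → ℝ) : Prop :=
  (∀ r < M, 0 ≤ p r) ∧ ∑ r ∈ Finset.range M, p r = 1 ∧
    ∀ r < M, p r = (∑ x ∈ (Finset.range (2 * M)).filter (fun x => T x % M = r), p (x % M)) / 2

/-- the first `s` terms of the trajectory of `n` are larger than `n ^ κ` -/
def Above (κ : ℝ) (n s : ℕ) : Prop := ∀ j < s, (n : ℝ) ^ κ < T^[j] n

open Pool.Agent.V11311.RC Pool.Agent.V11311.FP Pool.Agent.V11311.ER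

theorem conv {P : ℕ → Prop} {δ : ℝ} (h : HasD P δ) : HasDensity P δ := by
  classical
  unfold HasDensity
  unfold HasD at h
  refine h.congr fun N => ?_
  congr 1
  unfold cN
  rw [← Set.ncard_coe_finset]
  congr 2
  ext n
  rw [Finset.mem_coe, Finset.mem_filter, Finset.mem_Icc]
  constructor
  · rintro ⟨⟨h1, h2⟩, h3⟩; exact ⟨h1, h2, h3⟩
  · rintro ⟨h1, h2, h3⟩; exact ⟨⟨h1, h2⟩, h3⟩

theorem T_eq : Pool.Agent.Helper894.Collatz.T = T := rfl

theorem stat_of {M : ℕ} {p : ℕ → ℝ} (h : Pool.Agent.W38.BF.Stat M p) (h0 : ∀ r, 0 ≤ p r) :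
    Stationary M p := ⟨fun r _ => h0 r, h.1, h.2⟩

theorem of_stat {M : ℕ} {p : ℕ → ℝ} (h : Stationary M p) : Pool.Agent.W38.BF.Stat M p := ⟨h.2.1, h.2.2⟩

/-- **residues and leading digits in all short blocks** -/
theorem result (M : ℕ) (hM : 0 < M) : ∃ p : ℕ → ℝ, Stationary M p ∧
    (∀ q : ℕ → ℝ, Stationary M q → ∀ r < M, q r = p r) ∧ (¬ 3 ∣ M → ∀ r < M, p r = 1 / M) ∧
    ∀ B ε : ℝ, 1 < B → 0 < ε → ∃ C : ℝ, 0 < C ∧ ∀ κ : ℝ, 0 < κ →
      HasDensity (fun n => ∀ s w : ℕ, C * Real.log (Real.log n) ≤ w → Above κ n (s + w) →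
        ∀ r < M, ∀ a b : ℝ, 0 ≤ a → a ≤ b → b ≤ 1 →
          |(visits M r B a b (T^[s] n) w : ℝ) - (b - a) * p r * w| ≤ ε * w) 1 := by
  obtain ⟨p, hp, hp0, huniq, hcor⟩ := Pool.Agent.W38.BF.exists_stat_nat M hM
  have hNZ : NeZero M := ⟨hM.ne'⟩
  have hp1 : ∀ r < M, p r ≤ 1 := by
    intro r hr
    rw [← hp.1]
    exact Finset.single_le_sum (fun i _ => hp0 i) (Finset.mem_range.2 hr)
  refine ⟨p, stat_of hp hp0, fun q hq r hr => huniq q (of_stat hq) r hr, fun h3 r hr => ?_, ?_⟩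
  · exact (huniq _ (Pool.Agent.W38.BF.unif_stat M hM h3) r hr).symm
  · intro B ε hB hε
    obtain ⟨C, hC, h⟩ := Pool.Agent.V11311.BW.unif_wi hB (fun r _ => hp0 r) hp1 (hcor hNZ) hε
    refine ⟨C, hC, fun κ hκ => conv (HasD.congr (h κ hκ) fun n _ => ?_)⟩
    rfl

end Pool.Agent.Results.MP_ff4775_nt.ResiduesAndDigitsInWindows
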