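import Mathlib
import Pool.Agent.V11311.DV.I

set_option autoImplicit false

/-!
Divergent trajectories of the `3x+1` map and the densities of the sets of predecessors.
-/

namespace Pool.Agent.Results.MP_ff4775_nt.VanishingDensities

open Filter Topology

/-- the `3x+1` map `T` on the nonnegative integers -/
def T (n : ℕ) : ℕ := if n % 2 = 0 then n / 2 else (3 * n + 1) / 2

/-- `a` is a term of the trajectory of `n` -/
def Visits (n a : ℕ) : Prop := ∃ j : ℕ, T^[j] n = a

/-- the trajectories of `n` and `r` have a common term -/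
def Meets (n r : ℕ) : Prop := ∃ i j : ℕ, T^[i] n = T^[j] r

/-- the trajectory of `r` is divergent -/
def Divergent (r : ℕ) : Prop := Tendsto (fun j : ℕ => T^[j] r) atTop atTop

/-- **Divergence and the densities of the predecessors.** Let `D a` be the natural density of the integers
whose trajectory visits `a`, and `δ r` the natural density of the integers whose trajectory meets that of `r`.
The upper limit of `D a` for `a → ∞` is the supremum of the `δ r` over all `r > 0` with a divergent trajectory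
(it is zero if there are none), and along the trajectory of `r` the densities of the predecessors tend to
`δ r > 0`. So no positive integer has a divergent trajectory if and only if `D a → 0` for `a → ∞`. -/
theorem result : ∃ D δ : ℕ → ℝ,
    (∀ a : ℕ, 0 < a →
      Tendsto (fun N : ℕ => ({n : ℕ | 0 < n ∧ n ≤ N ∧ Visits n a}.ncard : ℝ) / N) atTop (𝓝 (D a))) ∧
    (∀ r : ℕ, 0 < r → 0 < δ r ∧
      Tendsto (fun N : ℕ => ({n : ℕ | 0 < n ∧ n ≤ N ∧ Meets n r}.ncard : ℝ) / N) atTop (𝓝 (δ r))) ∧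
    (∀ r : ℕ, 0 < r → Tendsto (fun j : ℕ => D (T^[j] r)) atTop (𝓝 (δ r))) ∧
    limsup D atTop = sSup {t : ℝ | ∃ r : ℕ, 0 < r ∧ Divergent r ∧ t = δ r} ∧
    (∀ ε : ℝ, 0 < ε → ∀ᶠ a : ℕ in atTop, ¬ Divergent a → D a ≤ ε) ∧
    (Tendsto D atTop (𝓝 0) ↔ ¬ ∃ r : ℕ, 0 < r ∧ Divergent r) := by
  classical
  choose δ hδ using Pool.Agent.V11311.DV.cls_dens
  have h : Pool.Agent.V11311.DV.IsC δ := hδ
  choose D hD' using Pool.Agent.V11311.PD.dens_exists
  have hD : Pool.Agent.V11311.PL.IsD D := hD'
  have hnc : ∀ (P : ℕ → Prop) (N : ℕ), ({n : ℕ | 0 < n ∧ n ≤ N ∧ P n}.ncard : ℝ)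
      = (Pool.Agent.V11311.FP.cN P N : ℝ) := by
    intro P N
    congr 1
    unfold Pool.Agent.V11311.FP.cN
    rw [← Set.ncard_coe_finset]
    congr 1
    ext n
    rw [Finset.mem_coe, Finset.mem_filter, Finset.mem_Icc]
    constructor
    · rintro ⟨h1, h2, h3⟩; exact ⟨⟨h1, h2⟩, h3⟩
    · rintro ⟨⟨h1, h2⟩, h3⟩; exact ⟨h1, h2, h3⟩
  refine ⟨D, δ, ?_, ?_, ?_, ?_, ?_, ?_⟩
  · intro a _
    have h1 := Pool.Agent.V11311.FP.IsD.hasD hD a
    unfold Pool.Agent.V11311.FP.HasD at h1
    refine h1.congr fun N => ?_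
    rw [hnc]
    rfl
  · intro r hr
    refine ⟨h.pos hr, ?_⟩
    have h1 := h r
    unfold Pool.Agent.V11311.FP.HasD at h1
    refine h1.congr fun N => ?_
    rw [hnc]
    rfl
  · intro r _
    exact Pool.Agent.V11311.DV.D_traj h hD r
  · exact Pool.Agent.V11311.DV.D_limsup h hD
  · intro ε hε
    filter_upwards [Pool.Agent.V11311.DV.D_large h hD ε hε] with a ha hnd
    rcases ha with ha | ⟨hd, _⟩
    · exact ha
    · exact absurd hd hnd
  · exact Pool.Agent.V11311.DV.D_zero_iff h hD

end Pool.Agent.Results.MP_ff4775_nt.VanishingDensities
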